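import Mathlib

/-!
# MP_b58a5b_nt: there is no uniform bound for the number of irreducible components

For every `N` there is `m` such that the numerical semigroup `{0} ∪ {m, m+1, …}` is not an
intersection of `N` or fewer irreducible numerical semigroups.

Idea: take `N + 1` positive integers such that the difference of any two of them divides both, and
`m` large and divisible by all small numbers. If two of the gaps `m - a < m - a'` are missing from
the same irreducible `T` with Frobenius number `f`, then by symmetry `y = f - (m - a)` and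
`y + (a - a')` are in `T`, and these two elements generate `f`, a contradiction.
-/

set_option autoImplicit false

namespace Pool.Agent.Results.MP_b58a5b_nt.NoUniformBound

/-- A numerical semigroup: a submonoid of `(ℕ, +)` with finite complement. -/
def IsNumericalSemigroup (S : AddSubmonoid ℕ) : Prop := (S : Set ℕ)ᶜ.Finite

/-- Irreducible: not the intersection of two numerical semigroups properly containing it. -/
def IsIrreducible (S : AddSubmonoid ℕ) : Prop :=
  ¬ ∃ S₁ S₂ : AddSubmonoid ℕ, IsNumericalSemigroup S₁ ∧ IsNumericalSemigroup S₂ ∧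
    S < S₁ ∧ S < S₂ ∧ S = S₁ ⊓ S₂

/-- adjoin an element -/
def adj (T : AddSubmonoid ℕ) (h : ℕ) (h2 : h + h ∈ T) (hT : ∀ t ∈ T, t ≠ 0 → h + t ∈ T) :
    AddSubmonoid ℕ where
  carrier := {x | x ∈ T ∨ x = h}
  zero_mem' := Or.inl T.zero_mem
  add_mem' := by
    rintro a b (ha | rfl) (hb | rfl)
    · exact Or.inl (T.add_mem ha hb)
    · by_cases h0 : a = 0
      · right; omega
      · left; rw [add_comm]; exact hT a ha h0
    · by_cases h0 : b = 0
      · right; omega
      · left; exact hT b hb h0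
    · exact Or.inl h2

theorem mem_adj (T : AddSubmonoid ℕ) (h : ℕ) (h2) (hT) (x : ℕ) :
    x ∈ adj T h h2 hT ↔ x ∈ T ∨ x = h := Iff.rfl

/-- The symmetry property of irreducible numerical semigroups. -/
theorem symm_of_irreducible (T : AddSubmonoid ℕ) (hT : IsNumericalSemigroup T)
    (hirr : IsIrreducible T) (f : ℕ) (hf : f ∉ T) (hf' : ∀ x, f < x → x ∈ T) (x : ℕ)
    (hx : x ∉ T) (h2x : 2 * x ≠ f) : f - x ∈ T := by
  by_contra hfx
  have hxf : x ≤ f := by
    by_contra h; exact hx (hf' x (by omega))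
  classical
  let P : ℕ → Prop := fun y => y ≤ f ∧ y ∉ T ∧ f - y ∉ T ∧ 2 * y ≠ f
  have hex : ∃ y, P y := ⟨x, hxf, hx, hfx, h2x⟩
  -- maximal such element
  obtain ⟨h, hP, hmax⟩ : ∃ h, P h ∧ ∀ y, P y → y ≤ h := by
    have hb : ∃ b, ∀ y, P y → y ≤ b := ⟨f, fun y hy => hy.1⟩
    obtain ⟨h, hP, hmax⟩ := Nat.findGreatest_spec (P := P) hxf ⟨hxf, hx, hfx, h2x⟩ |> fun h0 =>
      (⟨Nat.findGreatest P f, h0, fun y hy => Nat.le_findGreatest hy.1 hy⟩ :
        ∃ h, P h ∧ ∀ y, P y → y ≤ h)
    exact ⟨h, hP, hmax⟩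
  obtain ⟨h1, h2, h3, h4⟩ := hP
  have hgt : f < 2 * h := by
    have := hmax (f - h) ⟨by omega, h3, by rwa [Nat.sub_sub_self h1], by omega⟩
    omega
  have f0 : f ≠ 0 := by rintro rfl; exact hf T.zero_mem
  have hfh : h ≠ f := by
    rintro rfl
    apply h3; rw [Nat.sub_self]; exact T.zero_mem
  have hA2 : h + h ∈ T := hf' _ (by omega)
  have hA : ∀ t ∈ T, t ≠ 0 → h + t ∈ T := by
    intro t ht ht0
    by_contra hht
    by_cases hle : h + t ≤ f
    · by_cases hq : f - (h + t) ∈ T
      · apply h3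
        have : f - h = (f - (h + t)) + t := by omega
        rw [this]; exact T.add_mem hq ht
      · have := hmax (h + t) ⟨hle, hht, hq, by omega⟩
        omega
    · exact hht (hf' _ (by omega))
  have hB2 : f + f ∈ T := hf' _ (by omega)
  have hB : ∀ t ∈ T, t ≠ 0 → f + t ∈ T := fun t _ h0 => hf' _ (by omega)
  apply hirr
  refine ⟨adj T h hA2 hA, adj T f hB2 hB, ?_, ?_, ?_, ?_, ?_⟩
  · exact hT.subset (fun y hy hy' => hy (Or.inl hy'))
  · exact hT.subset (fun y hy hy' => hy (Or.inl hy'))
  · refine lt_of_le_of_ne (fun y hy => Or.inl hy) (fun he => h2 ?_)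
    rw [he]; exact Or.inr rfl
  · refine lt_of_le_of_ne (fun y hy => Or.inl hy) (fun he => hf ?_)
    rw [he]; exact Or.inr rfl
  · ext y
    rw [AddSubmonoid.mem_inf, mem_adj, mem_adj]
    constructor
    · intro hy; exact ⟨Or.inl hy, Or.inl hy⟩
    · rintro ⟨hy | rfl, hy' | hy'⟩
      · exact hy
      · exact hy
      · exact hy'
      · exact absurd hy' hfh

/-- Key contradiction: two gaps `m - a`, `m - a'` of `T` with `(a' - a) ∣ a`. -/
theorem key (T : AddSubmonoid ℕ) (hT : IsNumericalSemigroup T) (hirr : IsIrreducible T)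
    (m a a' : ℕ) (ha : 0 < a) (haa : a < a') (hd : (a' - a) ∣ a) (hdm : (a' - a) ∣ m)
    (hm : a' * a' * a' + 2 * a' < m) (hTm : ∀ x, m ≤ x → x ∈ T) (h1 : m - a ∉ T)
    (h2 : m - a' ∉ T) : False := by
  -- the Frobenius number
  classical
  obtain ⟨f, hf, hf'⟩ : ∃ f, f ∉ T ∧ ∀ x, f < x → x ∈ T := by
    refine ⟨Nat.findGreatest (fun x => x ∉ T) m, ?_, ?_⟩
    · exact Nat.findGreatest_spec (P := fun x => x ∉ T) (m := m - a) (by omega) h1
    · intro x hx
      by_contra hxT
      by_cases hxm : x ≤ m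
      · have := Nat.le_findGreatest (P := fun x => x ∉ T) hxm hxT
        omega
      · exact hxT (hTm x (by omega))
  have hfm : f < m := by
    by_contra h; exact hf (hTm f (by omega))
  have hfa : m - a ≤ f := by
    by_contra h; exact h1 (hf' _ (by omega))
  have hm2 : 2 * a' < m := lt_of_le_of_lt (Nat.le_add_left _ _) hm
  have hy := symm_of_irreducible T hT hirr f hf hf' (m - a) h1 (by omega)
  have hy' := symm_of_irreducible T hT hirr f hf hf' (m - a') h2 (by omega)
  obtain ⟨d, hd'⟩ : ∃ d, a' = a + d := ⟨a' - a, by omega⟩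
  subst hd'
  have hdd : a + d - a = d := by omega
  rw [hdd] at hd hdm
  have hd0 : 0 < d := by omega
  obtain ⟨y, hy0⟩ : ∃ y, f = y + (m - a) := ⟨f - (m - a), by omega⟩
  have e1 : f - (m - a) = y := by omega
  have e2 : f - (m - (a + d)) = y + d := by omega
  rw [e1] at hy
  rw [e2] at hy'
  obtain ⟨q, hq⟩ : d ∣ (m - a) := (Nat.dvd_sub hdm hd)
  apply hf
  have hya : y < a := by omega
  rw [hy0, hq]
  have hyd : 0 < y + d := by omega
  obtain ⟨Q, hQ⟩ : ∃ Q, Q = q / (y + d) := ⟨_, rfl⟩
  have hq1 : q < (y + d) * (Q + 1) := by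
    rw [hQ]; exact Nat.lt_mul_div_succ q hyd
  have hq2 : Q * (y + d) ≤ q := by rw [hQ]; exact Nat.div_mul_le_self q (y + d)
  have hqbig : y * (y + d) ≤ q := by
    by_contra hlt
    have h5 : d * q ≤ (a + d) * ((a + d) * (a + d)) := by
      apply Nat.mul_le_mul (by omega)
      refine le_trans (by omega : q ≤ y * (y + d)) ?_
      exact Nat.mul_le_mul (by omega) (by omega)
    rw [← hq] at h5
    have h6 : (a + d) * (a + d) * (a + d) = (a + d) * ((a + d) * (a + d)) := by ring
    rw [h6] at hm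
    omega
  have hQy : y ≤ Q := by rw [hQ, Nat.le_div_iff_mul_le hyd]; exact hqbig
  have hty : (Q + 1) * y ≤ q := by
    have h5 : Q * (y + d) = Q * y + Q * d := by ring
    have h6 : (Q + 1) * y = Q * y + y := by ring
    have h7 : Q ≤ Q * d := Nat.le_mul_of_pos_right _ hd0
    omega
  obtain ⟨v, hv⟩ : ∃ v, q = (Q + 1) * y + v := ⟨q - (Q + 1) * y, by omega⟩
  have hv1 : v ≤ 1 + d * (Q + 1) := by
    have : (y + d) * (Q + 1) = (Q + 1) * y + d * (Q + 1) := by ring
    omega
  obtain ⟨u, hu⟩ : ∃ u, 1 + d * (Q + 1) = u + v := ⟨1 + d * (Q + 1) - v, by omega⟩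
  have hfin : y + d * q = u * y + v * (y + d) := by
    calc y + d * q = (1 + d * (Q + 1)) * y + v * d := by rw [hv]; ring
      _ = (u + v) * y + v * d := by rw [hu]
      _ = _ := by ring
  rw [hfin]
  apply T.add_mem
  · rw [← smul_eq_mul]; exact T.nsmul_mem hy _
  · rw [← smul_eq_mul]; exact T.nsmul_mem hy' _

/-- There are arbitrarily large finite sets of positive integers in which the difference of any
two elements divides both. -/
theorem exists_set (n : ℕ) : ∃ A : Finset ℕ, A.card = n ∧ (∀ a ∈ A, 0 < a) ∧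
    ∀ a ∈ A, ∀ a' ∈ A, a < a' → (a' - a) ∣ a := by
  classical
  induction n with
  | zero => exact ⟨∅, by simp⟩
  | succ n ih =>
    obtain ⟨A, hA, hpos, hdiv⟩ := ih
    let P : ℕ := ∏ a ∈ A, a
    let Q : ℕ := ∏ z ∈ (A ×ˢ A).filter (fun z => z.1 < z.2), (z.2 - z.1)
    have hP : 0 < P := Finset.prod_pos hpos
    have hQ : 0 < Q := Finset.prod_pos (fun z hz => by
      have := (Finset.mem_filter.1 hz).2
      omega)
    have hPQ : 0 < P * Q := Nat.mul_pos hP hQ
    have hPdvd : ∀ a ∈ A, a ∣ P * Q := fun a ha =>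
      Dvd.dvd.mul_right (Finset.dvd_prod_of_mem (fun a => a) ha) Q
    have hQdvd : ∀ a ∈ A, ∀ a' ∈ A, a < a' → (a' - a) ∣ P * Q := fun a ha a' ha' h =>
      Dvd.dvd.mul_left (Finset.dvd_prod_of_mem (fun z : ℕ × ℕ => z.2 - z.1)
        (show (a, a') ∈ (A ×ˢ A).filter (fun z => z.1 < z.2) from
          Finset.mem_filter.2 ⟨Finset.mem_product.2 ⟨ha, ha'⟩, h⟩)) P
    refine ⟨insert (P * Q) (A.image (fun a => P * Q + a)), ?_, ?_, ?_⟩
    · rw [Finset.card_insert_of_notMem, Finset.card_image_of_injective _ (add_right_injective _), hA]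
      intro h
      rw [Finset.mem_image] at h
      obtain ⟨a, ha, he⟩ := h
      have := hpos a ha
      omega
    · intro a ha
      rw [Finset.mem_insert, Finset.mem_image] at ha
      rcases ha with rfl | ⟨b, _, rfl⟩ <;> omega
    · intro a ha a' ha' hlt
      rw [Finset.mem_insert, Finset.mem_image] at ha ha'
      rcases ha with rfl | ⟨b, hb, rfl⟩
      · rcases ha' with rfl | ⟨b', hb', rfl⟩
        · exact absurd hlt (lt_irrefl _)
        · rw [Nat.add_sub_cancel_left]; exact hPdvd b' hb'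
      · rcases ha' with rfl | ⟨b', hb', rfl⟩
        · omega
        · have e : P * Q + b' - (P * Q + b) = b' - b := by omega
          rw [e]
          have hlt' : b < b' := by omega
          exact Dvd.dvd.add (hQdvd b hb b' hb' hlt') (hdiv b hb b' hb' hlt')

/-- The semigroup `{0} ∪ {m, m+1, …}`. -/
def ordinary (m : ℕ) : AddSubmonoid ℕ where
  carrier := {x | x = 0 ∨ m ≤ x}
  zero_mem' := Or.inl rfl
  add_mem' := by
    rintro a b (rfl | ha) (rfl | hb)
    · exact Or.inl rfl
    · right; omega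
    · right; omega
    · right; omega

theorem ordinary_num (m : ℕ) : IsNumericalSemigroup (ordinary m) := by
  apply (Set.finite_Iio m).subset
  intro x hx
  by_contra h
  exact hx (Or.inr (by simpa using h))

/-- For every `N` there is a numerical semigroup (of the form `{0} ∪ {m, m+1, …}`) such that every
finite family of irreducible numerical semigroups with this intersection has more than `N` members.
So no uniform bound for `κ(S)` exists. -/
theorem result : ∀ N : ℕ, ∃ S : AddSubmonoid ℕ, IsNumericalSemigroup S ∧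
    (∃ m : ℕ, 0 < m ∧ (S : Set ℕ) = {x | x = 0 ∨ m ≤ x}) ∧
    ∀ F : Finset (AddSubmonoid ℕ), (∀ T ∈ F, IsNumericalSemigroup T ∧ IsIrreducible T) →
      sInf (F : Set (AddSubmonoid ℕ)) = S → N < F.card := by
  classical
  intro N
  obtain ⟨A, hA, hpos, hdiv⟩ := exists_set (N + 1)
  obtain ⟨B, hB⟩ : ∃ B : ℕ, ∀ a ∈ A, a ≤ B := ⟨A.sup id, fun a ha => Finset.le_sup (f := id) ha⟩
  let M : ℕ := (B * B * B + 2 * B + 1) * (B.factorial)
  have hfac : 0 < B.factorial := Nat.factorial_pos B
  have hM : B * B * B + 2 * B < M := by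
    calc B * B * B + 2 * B < (B * B * B + 2 * B + 1) * 1 := by omega
      _ ≤ M := Nat.mul_le_mul_left _ hfac
  refine ⟨ordinary M, ordinary_num M, ⟨M, by omega, rfl⟩, fun F hF hinf => ?_⟩
  by_contra hcard
  have hcard' : F.card < A.card := by omega
  -- choose for every `a ∈ A` a member of `F` missing `M - a`
  have hch : ∀ a ∈ A, ∃ T ∈ F, M - a ∉ T := by
    intro a ha
    by_contra hcon
    push Not at hcon
    have h1 : M - a ∈ sInf (F : Set (AddSubmonoid ℕ)) := by
      rw [AddSubmonoid.mem_sInf]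
      exact fun T hT => hcon T hT
    rw [hinf] at h1
    have ha0 := hpos a ha
    have haB := hB a ha
    rcases h1 with h1 | h1
    · have : B < M := by nlinarith
      omega
    · have : B < M := by nlinarith
      omega
  choose! φ hφF hφ using hch
  obtain ⟨a, ha, b, hb, hab, hφab⟩ := Finset.exists_ne_map_eq_of_card_lt_of_maps_to hcard' hφF
  -- wlog a < b
  have hall : ∀ a ∈ A, ∀ b ∈ A, a < b → φ a = φ b → False := by
    intro a ha b hb hlt he
    have hTm : ∀ x, M ≤ x → x ∈ φ a := by
      intro x hx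
      have h1 : x ∈ ordinary M := Or.inr hx
      rw [← hinf, AddSubmonoid.mem_sInf] at h1
      exact h1 _ (hφF a ha)
    have hbB := hB b hb
    refine key (φ a) (hF _ (hφF a ha)).1 (hF _ (hφF a ha)).2 M a b (hpos a ha) hlt
      (hdiv a ha b hb hlt) ?_ ?_ hTm (hφ a ha) (he ▸ hφ b hb)
    · exact Dvd.dvd.mul_left (Nat.dvd_factorial (by omega) (by omega)) _
    · refine lt_of_le_of_lt ?_ hM
      gcongr
  rcases lt_or_gt_of_ne hab with h | h
  · exact hall a ha b hb h hφab
  · exact hall b hb a ha h hφab.symm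

end Pool.Agent.Results.MP_b58a5b_nt.NoUniformBound
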